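import Pool.Agent.Helper28.TW.NOD2

/-!
# Module NOD: infinitely `2`-divisible points are periodic under doubling
-/

set_option autoImplicit false

namespace Pool.Agent.Helper22.TW

open Pool.Agent.Helper14.BSC Polynomial Topology

variable {E : IntermediateField ℚ_[2] ℂ_[2]}

theorem nod_near_nsmul (h1 : ST_NOD1) {b : Fin 3 → E} (hb : Function.Injective b) {ρ : ℝ}
    (hρ : ∀ i, ‖((b i : E) : ℂ_[2])‖ ≤ ρ) {P : EE b} (hP : Near hb ρ P) (k : ℕ) :
    Near hb ρ (k • P) := by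
  induction k with
  | zero => left; exact zero_nsmul P
  | succ k ih =>
    have h0 : Near hb ρ (-P) := by
      have := n2_near_sub h1 hb hρ (Or.inl rfl : Near hb ρ (0 : EE b)) hP
      rwa [zero_sub] at this
    have := n2_near_sub h1 hb hρ ih h0
    rwa [sub_neg_eq_add, ← succ_nsmul] at this

theorem nod_pow (h1 : ST_NOD1) {b : Fin 3 → E} (hb : Function.Injective b) {ρ : ℝ}
    (hρ0 : 0 < ρ) (hρ : ∀ i, ‖((b i : E) : ℂ_[2])‖ ≤ ρ) {x y : E} (h : Eqn b x y)
    (hx : ρ < ‖(x : ℂ_[2])‖) (m : ℕ) :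
    ∃ (x' y' : E) (h' : Eqn b x' y'), (2 ^ m) • EE.pt hb x y h = EE.pt hb x' y' h' ∧
      ‖(x' : ℂ_[2])‖ = 4 ^ m * ‖(x : ℂ_[2])‖ := by
  induction m with
  | zero => exact ⟨x, y, h, by simp, by simp⟩
  | succ m ih =>
    obtain ⟨x', y', h', e, hn⟩ := ih
    have hx' : ρ < ‖(x' : ℂ_[2])‖ := by
      rw [hn]
      have : (1 : ℝ) ≤ 4 ^ m := one_le_pow₀ (by norm_num)
      nlinarith
    obtain ⟨x3, y3, h3, e3, hn3⟩ := (h1 E b hb ρ hρ).1 x' y' h' hx'
    refine ⟨x3, y3, h3, ?_, ?_⟩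
    · rw [pow_succ', mul_smul, e, two_smul, e3]
    · rw [hn3, hn, pow_succ]; ring

theorem st_NOD (h1 : ST_NOD1) (h2 : ST_NOD2) : ST_NOD := by
  intro E hE a ha
  obtain ⟨ε, hε, ρ, hρ0, N, hN⟩ := h2 E hE a ha
  obtain ⟨s, n', hodd, hfac⟩ := Nat.exists_eq_two_pow_mul_odd (Nat.factorial_ne_zero N)
  have hn0 : 0 < n' := hodd.pos
  refine ⟨ε, hε, Nat.totient n', Nat.totient_pos.2 hn0, ?_⟩
  intro b hb hba P hP
  obtain ⟨hρ, hpig⟩ := hN b hb hba
  -- multiples by `N!` are near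
  have hnear : ∀ R : EE b, Near hb ρ (N.factorial • R) := by
    intro R
    obtain ⟨i, j, hij, hn⟩ := hpig fun i => ((i : ℕ) + 1) • R
    have h3 : ((j : ℕ) + 1) • R - ((i : ℕ) + 1) • R = ((j : ℕ) - i) • R := by
      have hij' : (i : ℕ) < j := hij
      have e : (j : ℕ) + 1 = ((j : ℕ) - i) + (i + 1) := by omega
      rw [e, add_smul, add_sub_cancel_right]
    change Near hb ρ (((j : ℕ) + 1) • R - ((i : ℕ) + 1) • R) at hn
    rw [h3] at hn
    have hdvd : ((j : ℕ) - i) ∣ N.factorial := by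
      have hij' : (i : ℕ) < j := hij
      exact Nat.dvd_factorial (by omega) (by have := j.2; omega)
    obtain ⟨c, hc⟩ := hdvd
    rw [hc, mul_comm, mul_smul]
    exact nod_near_nsmul h1 hb hρ hn c
  -- the odd part kills `P`
  have hkill : n' • P = 0 := by
    by_contra hne
    rcases EE.cases hb (n' • P) with h0 | ⟨X, Y, hXY, h0⟩
    · exact hne h0
    have hgrow : ∀ m : ℕ, 4 ^ m * ρ < ‖(X : ℂ_[2])‖ := by
      intro m
      obtain ⟨R, hR⟩ := hP (s + m)
      have e1 : n' • P = (2 ^ m) • (N.factorial • R) := by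
        rw [← hR, ← mul_smul, ← mul_smul, hfac]
        congr 1
        rw [pow_add]; ring
      rcases hnear R with h3 | ⟨x, y, h, h3, hx⟩
      · exact absurd (by rw [e1, h3, smul_zero]) hne
      · obtain ⟨x', y', h', h4, h5⟩ := nod_pow h1 hb hρ0 hρ h hx m
        rw [h3, h4, h0] at e1
        rw [(EE.pt_inj hb e1).1, h5]
        have : (0 : ℝ) < 4 ^ m := by positivity
        gcongr
    have ht : Filter.Tendsto (fun m : ℕ => (4 : ℝ) ^ m * ρ) Filter.atTop Filter.atTop :=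
      (tendsto_pow_atTop_atTop_of_one_lt (by norm_num)).atTop_mul_const hρ0
    obtain ⟨m, hm⟩ := (ht.eventually (Filter.eventually_gt_atTop ‖(X : ℂ_[2])‖)).exists
    have := hgrow m
    linarith
  have hmod : 2 ^ Nat.totient n' ≡ 1 [MOD n'] :=
    Nat.ModEq.pow_totient (Nat.coprime_two_left.2 hodd)
  have h1le : 1 ≤ 2 ^ Nat.totient n' := Nat.one_le_two_pow
  obtain ⟨c, hc⟩ := (Nat.modEq_iff_dvd' h1le).1 hmod.symm
  have e2 : 2 ^ Nat.totient n' = c * n' + 1 := by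
    have : 2 ^ Nat.totient n' = (2 ^ Nat.totient n' - 1) + 1 := by omega
    rw [this, hc]; ring
  rw [e2, add_smul, one_smul, mul_smul, hkill, smul_zero, zero_add]

end Pool.Agent.Helper22.TW
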