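import Pool.Agent.Helper28.TW.NOD2

/-!
# Module NOD1: points with large `x`
-/

set_option autoImplicit false

namespace Pool.Agent.Helper22.TW

open Pool.Agent.Helper14.BSC Polynomial Topology

section field

variable {K : Type} [NormedField K] [IsUltrametricDist K]

theorem n1_sub_eq {x y : K} (h : ‖y‖ < ‖x‖) : ‖x - y‖ = ‖x‖ := by
  rw [sub_eq_add_neg]
  exact n2_add_eq (by rwa [norm_neg])

theorem n1_double {b0 b1 b2 x y x3 : K} {ρ : ℝ} (h2 : ‖(2 : K)‖ = 1 / 2) (h0 : ‖b0‖ ≤ ρ)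
    (h1 : ‖b1‖ ≤ ρ) (h2' : ‖b2‖ ≤ ρ) (hx : ρ < ‖x‖) (hy : y ^ 2 = (x - b0) * (x - b1) * (x - b2))
    (hy0 : y ≠ 0)
    (h3 : x3 = (((x - b0) * (x - b1) + (x - b0) * (x - b2) + (x - b1) * (x - b2)) / (2 * y)) ^ 2 +
        (b0 + b1 + b2) - 2 * x) : ‖x3‖ = 4 * ‖x‖ := by
  have h20 : (2 : K) ≠ 0 := by
    intro h
    rw [h, norm_zero] at h2
    norm_num at h2
  have hρ0 : 0 ≤ ρ := (norm_nonneg _).trans h0
  have hx0 : 0 < ‖x‖ := hρ0.trans_lt hx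
  have e : x3 = ((x - b0) ^ 2 - (b0 - b1) * (b0 - b2)) ^ 2 / (2 ^ 2 * y ^ 2) + b0 := by
    have e1 : x3 * (2 ^ 2 * y ^ 2) = ((x - b0) ^ 2 - (b0 - b1) * (b0 - b2)) ^ 2 +
        b0 * (2 ^ 2 * y ^ 2) := by
      have e2 : x3 * (2 ^ 2 * y ^ 2) = ((x - b0) * (x - b1) + (x - b0) * (x - b2) +
          (x - b1) * (x - b2)) ^ 2 + (b0 + b1 + b2 - 2 * x) * (2 ^ 2 * y ^ 2) := by
        rw [h3]; field_simp; ring
      rw [e2, hy]; ring
    have hne : (2 : K) ^ 2 * y ^ 2 ≠ 0 := by positivity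
    field_simp
    linear_combination e1
  have n0 := n1_sub_eq (h0.trans_lt hx)
  have n1 := n1_sub_eq (h1.trans_lt hx)
  have n2 := n1_sub_eq (h2'.trans_lt hx)
  have ny : ‖y‖ ^ 2 = ‖x‖ ^ 3 := by
    rw [← norm_pow, hy, norm_mul, norm_mul, n0, n1, n2]; ring
  have nb : ‖(b0 - b1) * (b0 - b2)‖ < ‖(x - b0) ^ 2‖ := by
    rw [norm_mul, norm_pow, n0]
    calc ‖b0 - b1‖ * ‖b0 - b2‖ ≤ ρ * ρ := by
          gcongr
          · exact n2_sub_le h0 h1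
          · exact n2_sub_le h0 h2'
      _ < ‖x‖ ^ 2 := by nlinarith
  have nn : ‖((x - b0) ^ 2 - (b0 - b1) * (b0 - b2)) ^ 2 / (2 ^ 2 * y ^ 2)‖ = 4 * ‖x‖ := by
    rw [norm_div, norm_pow, n1_sub_eq nb, norm_pow, n0, norm_mul, norm_pow, norm_pow, h2, ny]
    field_simp
    ring
  rw [e, n2_add_eq, nn]
  rw [nn]; linarith

theorem n1_diff {b0 b1 b2 x y x' y' x3 : K} {ρ : ℝ} (h2 : ‖(2 : K)‖ = 1 / 2) (h0 : ‖b0‖ ≤ ρ)
    (h1 : ‖b1‖ ≤ ρ) (h2' : ‖b2‖ ≤ ρ) (hx : ‖x‖ ≤ ρ) (hx' : ρ < ‖x'‖)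
    (hy : y ^ 2 = (x - b0) * (x - b1) * (x - b2))
    (hy' : y' ^ 2 = (x' - b0) * (x' - b1) * (x' - b2)) (hne : x - x' ≠ 0)
    (h3 : x3 = ((y + y') / (x - x')) ^ 2 + (b0 + b1 + b2) - x - x') : ‖x3‖ ≤ ρ := by
  have hρ0 : 0 ≤ ρ := (norm_nonneg _).trans h0
  have hx0 : 0 < ‖x'‖ := hρ0.trans_lt hx'
  set R := ‖x'‖ with hR
  have e : x3 * (x - x') ^ 2 = (x * x' + (b0 * b1 + b0 * b2 + b1 * b2)) * (x + x') +
      (-(2 * (b0 + b1 + b2) * (x * x')) + (-(2 * (b0 * b1 * b2)) + 2 * (y * y'))) := by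
    have e1 : x3 * (x - x') ^ 2 = (y + y') ^ 2 + ((b0 + b1 + b2) - x - x') * (x - x') ^ 2 := by
      rw [h3]; field_simp; ring
    rw [e1]
    linear_combination hy + hy'
  have nd : ‖x - x'‖ = R := by
    rw [norm_sub_rev]; exact n1_sub_eq (hx.trans_lt hx')
  have two : ∀ z : K, ‖2 * z‖ ≤ ‖z‖ := by
    intro z
    rw [norm_mul, h2]
    have := norm_nonneg z
    linarith
  have hρR : ρ * ρ ≤ ρ * R := by gcongr
  have t1 : ‖(x * x' + (b0 * b1 + b0 * b2 + b1 * b2)) * (x + x')‖ ≤ ρ * R ^ 2 := by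
    have g1 : ‖x * x'‖ ≤ ρ * R := by rw [norm_mul]; gcongr
    have g2 : ∀ u v : K, ‖u‖ ≤ ρ → ‖v‖ ≤ ρ → ‖u * v‖ ≤ ρ * R := by
      intro u v hu hv
      rw [norm_mul]
      exact (mul_le_mul hu hv (norm_nonneg _) hρ0).trans hρR
    have g3 : ‖x * x' + (b0 * b1 + b0 * b2 + b1 * b2)‖ ≤ ρ * R :=
      n2_add_le g1 (n2_add_le (n2_add_le (g2 _ _ h0 h1) (g2 _ _ h0 h2')) (g2 _ _ h1 h2'))
    have g4 : ‖x + x'‖ ≤ R := n2_add_le (hx.trans hx'.le) le_rfl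
    rw [norm_mul]
    calc _ ≤ ρ * R * R := by gcongr
      _ = ρ * R ^ 2 := by ring
  have t2 : ‖-(2 * (b0 + b1 + b2) * (x * x'))‖ ≤ ρ * R ^ 2 := by
    rw [norm_neg, mul_assoc]
    refine (two _).trans ?_
    rw [norm_mul, norm_mul]
    have g1 : ‖b0 + b1 + b2‖ ≤ R := (n2_add_le (n2_add_le h0 h1) h2').trans hx'.le
    calc ‖b0 + b1 + b2‖ * (‖x‖ * R) ≤ R * (ρ * R) := by gcongr
      _ = ρ * R ^ 2 := by ring
  have t3 : ‖-(2 * (b0 * b1 * b2))‖ ≤ ρ * R ^ 2 := by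
    rw [norm_neg]
    refine (two _).trans ?_
    rw [norm_mul, norm_mul]
    calc ‖b0‖ * ‖b1‖ * ‖b2‖ ≤ ρ * R * R := by
          gcongr
          · exact h1.trans hx'.le
          · exact h2'.trans hx'.le
      _ = ρ * R ^ 2 := by ring
  have t4 : ‖2 * (y * y')‖ ≤ ρ * R ^ 2 := by
    refine (two _).trans ?_
    refine le_of_sq_le_sq ?_ (by positivity)
    have g1 : ‖y‖ ^ 2 ≤ ρ ^ 3 := by
      rw [← norm_pow, hy, norm_mul, norm_mul]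
      calc ‖x - b0‖ * ‖x - b1‖ * ‖x - b2‖ ≤ ρ * ρ * ρ := by
            gcongr
            · exact n2_sub_le hx h0
            · exact n2_sub_le hx h1
            · exact n2_sub_le hx h2'
        _ = ρ ^ 3 := by ring
    have g2 : ‖y'‖ ^ 2 = R ^ 3 := by
      rw [← norm_pow, hy', norm_mul, norm_mul, n1_sub_eq (h0.trans_lt hx'),
        n1_sub_eq (h1.trans_lt hx'), n1_sub_eq (h2'.trans_lt hx')]
      ring
    rw [norm_mul, mul_pow, g2]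
    calc ‖y‖ ^ 2 * R ^ 3 ≤ ρ ^ 3 * R ^ 3 := by gcongr
      _ = ρ ^ 2 * R ^ 3 * ρ := by ring
      _ ≤ ρ ^ 2 * R ^ 3 * R := by gcongr
      _ = (ρ * R ^ 2) ^ 2 := by ring
  have t5 : ‖x3‖ * R ^ 2 ≤ ρ * R ^ 2 := by
    rw [← nd, ← norm_pow, ← norm_mul, e, norm_pow, nd]
    exact n2_add_le t1 (n2_add_le t2 (n2_add_le t3 t4))
  exact le_of_mul_le_mul_right t5 (by positivity)

end field

theorem st_NOD1 : ST_NOD1 := by
  intro E b hb ρ hρ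
  have eq : ∀ {x y : E}, Eqn b x y → (y : ℂ_[2]) ^ 2 = ((x : ℂ_[2]) - (b 0 : E)) *
      ((x : ℂ_[2]) - (b 1 : E)) * ((x : ℂ_[2]) - (b 2 : E)) := by
    intro x y h
    have := congrArg (fun z : E => (z : ℂ_[2])) h
    push_cast at this
    exact this
  constructor
  · intro x y h hx
    have hy0 : y ≠ 0 := by
      rintro rfl
      have h1 := eq h
      have h2 : ∀ i, (x : ℂ_[2]) - (b i : E) ≠ 0 := by
        intro i hi
        have := hρ i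
        rw [← sub_eq_zero.1 hi] at this
        linarith
      rw [show ((0 : E) : ℂ_[2]) = 0 from rfl, zero_pow two_ne_zero] at h1
      exact mul_ne_zero (mul_ne_zero (h2 0) (h2 1)) (h2 2) h1.symm
    obtain ⟨x3, y3, h3, h4, h5, -⟩ := EE.add_self hb h hy0
    refine ⟨x3, y3, h3, h4, ?_⟩
    have h6 := congrArg (fun z : E => (z : ℂ_[2])) h5
    have h20 : ((2 : E) : ℂ_[2]) = 2 := rfl
    push_cast [h20] at h6
    exact n1_double n2_norm_two (hρ 0) (hρ 1) (hρ 2) hx (eq h)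
      (fun h => hy0 (Subtype.ext h)) h6
  · intro x y h x' y' h' hx hx'
    have hne : x ≠ x' := by
      rintro rfl
      linarith
    have h3 : EE.pt hb x y h - EE.pt hb x' y' h' = EE.pt hb x y h + EE.pt hb x' (-y') h'.neg := by
      rw [sub_eq_add_neg, EE.neg_pt]
    obtain ⟨x3, y3, h4, h5, h6, -⟩ := EE.add_of_x_ne hb h h'.neg hne
    refine ⟨x3, y3, h4, by rw [h3, h5], ?_⟩
    have h7 := congrArg (fun z : E => (z : ℂ_[2])) h6
    push_cast at h7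
    rw [sub_neg_eq_add] at h7
    exact n1_diff n2_norm_two (hρ 0) (hρ 1) (hρ 2) hx hx' (eq h) (eq h')
      (fun h => hne (Subtype.ext (sub_eq_zero.1 h))) h7

end Pool.Agent.Helper22.TW
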