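import Pool.Agent.Helper22.TW.Stmts

/-!
# Module NOD2: locally uniform pigeonhole
-/

set_option autoImplicit false

namespace Pool.Agent.Helper22.TW

open Pool.Agent.Helper14.BSC Polynomial Topology

section field

variable {K : Type} [NormedField K] [IsUltrametricDist K]

theorem n2_add_le {x y : K} {c : ℝ} (hx : ‖x‖ ≤ c) (hy : ‖y‖ ≤ c) : ‖x + y‖ ≤ c :=
  (IsUltrametricDist.norm_add_le_max x y).trans (max_le hx hy)

theorem n2_sub_le {x y : K} {c : ℝ} (hx : ‖x‖ ≤ c) (hy : ‖y‖ ≤ c) : ‖x - y‖ ≤ c := by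
  rw [sub_eq_add_neg]; exact n2_add_le hx (by rwa [norm_neg])

theorem n2_add_eq {x y : K} (h : ‖y‖ < ‖x‖) : ‖x + y‖ = ‖x‖ := by
  rw [IsUltrametricDist.norm_add_eq_max_of_norm_ne_norm h.ne', max_eq_left h.le]

theorem n2_big {A T : K} {ρ : ℝ} (hA : ρ < ‖A‖) (hT : ‖T‖ ≤ ρ) : ρ < ‖A + T‖ := by
  rw [n2_add_eq (hT.trans_lt hA)]; exact hA

theorem n2_one {u v w : K} {r ρ : ℝ} (hr : 0 < r) (hrρ : r ≤ ρ) (hu : ‖u‖ < r ^ 2 / ρ)
    (huv : r ≤ ‖u - v‖) (huw : r ≤ ‖u - w‖) (hv : ‖v‖ ≤ ρ) (hw : ‖w‖ ≤ ρ) :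
    r ^ 2 ≤ ‖u * v + u * w + v * w‖ := by
  have hρ : 0 < ρ := hr.trans_le hrρ
  have hur : ‖u‖ < r := by
    refine hu.trans_le ?_
    rw [div_le_iff₀ hρ]; nlinarith
  have key : ∀ v : K, r ≤ ‖u - v‖ → r ≤ ‖v‖ := by
    intro v h
    by_contra hlt
    push Not at hlt
    have : ‖u - v‖ < r := by
      rw [sub_eq_add_neg]
      exact (IsUltrametricDist.norm_add_le_max u (-v)).trans_lt (max_lt hur (by rwa [norm_neg]))
    linarith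
  have h1 := key v huv
  have h2 := key w huw
  have h3 : r ^ 2 ≤ ‖v * w‖ := by rw [norm_mul]; nlinarith
  have h4 : ‖u * (v + w)‖ < r ^ 2 := by
    rw [norm_mul]
    have h5 : ‖v + w‖ ≤ ρ := n2_add_le hv hw
    calc ‖u‖ * ‖v + w‖ ≤ ‖u‖ * ρ := by gcongr
      _ < r ^ 2 / ρ * ρ := by gcongr
      _ = r ^ 2 := by field_simp
  have h6 : u * v + u * w + v * w = v * w + u * (v + w) := by ring
  rw [h6, n2_add_eq (h4.trans_le h3)]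
  exact h3

theorem n2_dich {u v w : K} {r ρ : ℝ} (hr : 0 < r) (hrρ : r ≤ ρ) (huv : r ≤ ‖u - v‖)
    (huw : r ≤ ‖u - w‖) (hvw : r ≤ ‖v - w‖) (hu : ‖u‖ ≤ ρ) (hv : ‖v‖ ≤ ρ) (hw : ‖w‖ ≤ ρ) :
    (r ^ 2 / ρ) ^ 3 ≤ ‖u * v * w‖ ∨ r ^ 2 ≤ ‖u * v + u * w + v * w‖ := by
  have hρ : 0 < ρ := hr.trans_le hrρ
  by_cases h1 : ‖u‖ < r ^ 2 / ρ
  · exact Or.inr (n2_one hr hrρ h1 huv huw hv hw)
  by_cases h2 : ‖v‖ < r ^ 2 / ρ
  · right
    have := n2_one hr hrρ h2 (by rwa [norm_sub_rev]) hvw hu hw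
    rwa [show v * u + v * w + u * w = u * v + u * w + v * w by ring] at this
  by_cases h3 : ‖w‖ < r ^ 2 / ρ
  · right
    have := n2_one hr hrρ h3 (by rwa [norm_sub_rev]) (by rwa [norm_sub_rev]) hu hv
    rwa [show w * u + w * v + u * v = u * v + u * w + v * w by ring] at this
  left
  push Not at h1 h2 h3
  have h0 : 0 ≤ r ^ 2 / ρ := by positivity
  rw [norm_mul, norm_mul]
  calc (r ^ 2 / ρ) ^ 3 = r ^ 2 / ρ * (r ^ 2 / ρ) * (r ^ 2 / ρ) := by ring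
    _ ≤ ‖u‖ * ‖v‖ * ‖w‖ := by gcongr

omit [IsUltrametricDist K] in
theorem n2_ratio {A B : K} {c η ρ : ℝ} (hρ : 0 < ρ) (hc : ρ * η ^ 2 < c) (hB0 : B ≠ 0)
    (hB : ‖B‖ ≤ η) (hA : c ≤ ‖A‖ ^ 2) : ρ < ‖(A / B) ^ 2‖ := by
  have hB1 : 0 < ‖B‖ := norm_pos_iff.2 hB0
  rw [norm_pow, norm_div, div_pow, lt_div_iff₀ (by positivity)]
  have h1 : ‖B‖ ^ 2 ≤ η ^ 2 := pow_le_pow_left₀ hB1.le hB 2
  nlinarith

theorem n2_same {G y T : K} {D δ η ρ : ℝ} (h2 : ‖(2 : K)‖ = 1 / 2) (hρ : 0 < ρ)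
    (hD : η ^ 2 < D / 4) (hδ : ρ * η ^ 2 < δ ^ 2) (hδ0 : 0 < δ) (hy : y ≠ 0)
    (hyy : ‖2 * y‖ ≤ η) (hd : D ≤ ‖y‖ ^ 2 ∨ δ ≤ ‖G‖) (hT : ‖T‖ ≤ ρ) :
    ρ < ‖(G / (2 * y)) ^ 2 + T‖ := by
  have h20 : (2 : K) ≠ 0 := by
    intro h
    rw [h, norm_zero] at h2
    norm_num at h2
  refine n2_big ?_ hT
  rcases hd with h | h
  · exfalso
    have h3 : ‖2 * y‖ ^ 2 ≤ η ^ 2 := pow_le_pow_left₀ (norm_nonneg _) hyy 2
    rw [norm_mul, h2, mul_pow] at h3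
    nlinarith
  · exact n2_ratio hρ hδ (mul_ne_zero h20 hy) hyy (pow_le_pow_left₀ hδ0.le h 2)

theorem n2_diff {G h Y1 Y2 S T : K} {D δ η ρ : ℝ} (h2 : ‖(2 : K)‖ = 1 / 2) (hη : 0 < η)
    (hρ : 0 < ρ) (hD : η ^ 2 < D / 4) (hDρ : ρ * η ^ 2 < D / 4) (hδ : ρ * η ^ 2 < δ ^ 2)
    (hδ0 : 0 < δ) (hηρ : η ≤ ρ) (hηδ : ρ * η < δ) (hh : h ≠ 0) (hhη : ‖h‖ ≤ η)
    (hy : ‖Y1 - Y2‖ ≤ η) (heq : Y1 ^ 2 - Y2 ^ 2 = h * (G - S * h + h ^ 2)) (hS : ‖S‖ ≤ ρ)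
    (hd : D ≤ ‖Y1‖ ^ 2 ∨ δ ≤ ‖G‖) (hT : ‖T‖ ≤ ρ) : ρ < ‖((Y1 + Y2) / h) ^ 2 + T‖ := by
  refine n2_big ?_ hT
  have hh0 : 0 < ‖h‖ := norm_pos_iff.2 hh
  rcases hd with hd | hd
  · have h3 : ‖2 * Y1‖ ^ 2 = ‖Y1‖ ^ 2 / 4 := by rw [norm_mul, h2]; ring
    have h4 : η < ‖2 * Y1‖ := by
      refine lt_of_pow_lt_pow_left₀ 2 (norm_nonneg _) ?_
      rw [h3]; linarith
    have h5 : ‖Y1 + Y2‖ = ‖2 * Y1‖ := by
      have e : Y1 + Y2 = 2 * Y1 + -(Y1 - Y2) := by ring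
      rw [e]
      refine n2_add_eq ?_
      rw [norm_neg]
      exact hy.trans_lt h4
    refine n2_ratio hρ hDρ hh hhη ?_
    rw [h5, h3]; linarith
  · have h3 : ‖-(S * h) + h ^ 2‖ < δ := by
      refine lt_of_le_of_lt (n2_add_le (c := ρ * η) ?_ ?_) hηδ
      · rw [norm_neg, norm_mul]; gcongr
      · rw [norm_pow, sq]
        exact mul_le_mul (hhη.trans hηρ) hhη (norm_nonneg _) hρ.le
    have h4 : ‖G - S * h + h ^ 2‖ = ‖G‖ := by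
      have e : G - S * h + h ^ 2 = G + (-(S * h) + h ^ 2) := by ring
      rw [e]
      exact n2_add_eq (h3.trans_le hd)
    have h5 : ‖Y1 - Y2‖ * ‖Y1 + Y2‖ = ‖h‖ * ‖G‖ := by
      rw [← h4, ← norm_mul, ← norm_mul, ← heq]
      congr 1
      ring
    have h6 : ‖h‖ * δ ≤ η * ‖Y1 + Y2‖ := by
      calc ‖h‖ * δ ≤ ‖h‖ * ‖G‖ := by gcongr
        _ = ‖Y1 - Y2‖ * ‖Y1 + Y2‖ := h5.symm
        _ ≤ η * ‖Y1 + Y2‖ := by gcongr
    rw [norm_pow, norm_div, div_pow, lt_div_iff₀ (by positivity)]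
    have h7 : (‖h‖ * δ) ^ 2 ≤ (η * ‖Y1 + Y2‖) ^ 2 := pow_le_pow_left₀ (by positivity) h6 2
    have h8 : 0 < ‖h‖ ^ 2 := by positivity
    have h9 : ρ * ‖h‖ ^ 2 * η ^ 2 < ‖Y1 + Y2‖ ^ 2 * η ^ 2 := by nlinarith
    exact lt_of_mul_lt_mul_right h9 (by positivity)

end field

theorem n2_eta {D δ ρ : ℝ} (hD : 0 < D) (hδ : 0 < δ) (hρ : 0 < ρ) : ∃ η : ℝ, 0 < η ∧
    η ^ 2 < D / 4 ∧ ρ * η ^ 2 < D / 4 ∧ ρ * η ^ 2 < δ ^ 2 ∧ η ≤ ρ ∧ ρ * η < δ := by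
  have t1 : Filter.Tendsto (fun η : ℝ => η ^ 2) (𝓝 0) (𝓝 0) :=
    (continuous_pow 2).tendsto' 0 0 (by simp)
  have t2 : Filter.Tendsto (fun η : ℝ => ρ * η ^ 2) (𝓝 0) (𝓝 0) :=
    (continuous_const.mul (continuous_pow 2)).tendsto' 0 0 (by simp)
  have t3 : Filter.Tendsto (fun η : ℝ => ρ * η) (𝓝 0) (𝓝 0) :=
    (continuous_const.mul continuous_id).tendsto' 0 0 (by simp)
  have e1 := t1.eventually (gt_mem_nhds (show (0 : ℝ) < D / 4 by positivity))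
  have e2 := t2.eventually (gt_mem_nhds (show (0 : ℝ) < D / 4 by positivity))
  have e3 := t2.eventually (gt_mem_nhds (show (0 : ℝ) < δ ^ 2 by positivity))
  have e4 := t3.eventually (gt_mem_nhds hδ)
  have e5 : ∀ᶠ η : ℝ in 𝓝 0, η < ρ := gt_mem_nhds hρ
  have e6 := (e1.and (e2.and (e3.and (e5.and e4)))).filter_mono
    (nhdsWithin_le_nhds (s := Set.Ioi (0 : ℝ)))
  obtain ⟨η, ⟨h1, h2, h3, h4, h5⟩, h6⟩ := (e6.and self_mem_nhdsWithin).exists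
  exact ⟨η, h6, h1, h2, h3, h4.le, h5⟩

theorem n2_cover (E : IntermediateField ℚ_[2] ℂ_[2]) (hE : FiniteDimensional ℚ_[2] E) (R η : ℝ)
    (hη : 0 < η) :
    ∃ r : ℕ, ∃ f : Fin r → ℂ_[2], ∀ w ∈ E, ‖w‖ ≤ R → ∃ i, ‖w - f i‖ < η := by
  have hE' : FiniteDimensional ℚ_[2] E.toSubmodule := hE
  have hP : ProperSpace E.toSubmodule := FiniteDimensional.proper ℚ_[2] E.toSubmodule
  have hK : IsCompact (Metric.closedBall (0 : E.toSubmodule) R) := isCompact_closedBall _ _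
  obtain ⟨t, ht1, ht2⟩ := hK.elim_finite_subcover_image (b := Set.univ)
    (c := fun x : E.toSubmodule => Metric.ball x η)
    (fun x _ => Metric.isOpen_ball)
    (fun x _ => Set.mem_iUnion₂.2 ⟨x, trivial, Metric.mem_ball_self hη⟩)
  obtain ⟨ht3, ht4⟩ := ht2
  obtain ⟨n, f, hf⟩ : ∃ (n : ℕ) (f : Fin n → E.toSubmodule), ∀ x ∈ t, ∃ i, f i = x := by
    have := ht3.fintype
    refine ⟨Fintype.card t, fun i => (((Fintype.equivFin t).symm i : t) : E.toSubmodule),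
      fun x hx => ?_⟩
    exact ⟨Fintype.equivFin t ⟨x, hx⟩, by simp⟩
  refine ⟨n, fun i => (f i : ℂ_[2]), fun w hw hw1 => ?_⟩
  have h1 : (⟨w, hw⟩ : E.toSubmodule) ∈ Metric.closedBall (0 : E.toSubmodule) R := by
    rw [mem_closedBall_zero_iff]
    exact hw1
  obtain ⟨x, hx, hxw⟩ := Set.mem_iUnion₂.1 (ht4 h1)
  obtain ⟨i, hi⟩ := hf x hx
  refine ⟨i, ?_⟩
  rw [← hi, Metric.mem_ball, dist_eq_norm] at hxw
  exact hxw

theorem n2_norm_two : ‖(2 : ℂ_[2])‖ = 1 / 2 := by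
  have h1 : ((2 : ℚ_[2]) : ℂ_[2]) = 2 := by
    have := map_ofNat (algebraMap ℚ_[2] ℂ_[2]) 2
    exact this
  rw [← h1, PadicComplex.norm_extends']
  have := Padic.norm_p (p := 2)
  rw [one_div]
  exact_mod_cast this

variable {E : IntermediateField ℚ_[2] ℂ_[2]}

/-- the difference of two points near the origin is near the origin -/
theorem n2_near_sub (h1 : ST_NOD1) {b : Fin 3 → E} (hb : Function.Injective b) {ρ : ℝ}
    (hρ : ∀ i, ‖((b i : E) : ℂ_[2])‖ ≤ ρ) {P Q : EE b} (hP : Near hb ρ P) (hQ : Near hb ρ Q) :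
    Near hb ρ (P - Q) := by
  have hneg : ∀ R : EE b, Near hb ρ R → Near hb ρ (-R) := by
    rintro R (h | ⟨x, y, h, rfl, hx⟩)
    · left; rw [h, neg_zero]
    · right
      exact ⟨x, -y, h.neg, EE.neg_pt hb h, hx⟩
  have hQ' := hneg Q hQ
  rcases hP with rfl | ⟨x, y, h, rfl, hx⟩
  · rw [zero_sub]; exact hQ'
  rcases hQ' with h0 | ⟨x', y', h', hQe, hx'⟩
  · rw [sub_eq_add_neg, h0, add_zero]
    exact Or.inr ⟨x, y, h, rfl, hx⟩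
  rcases EE.cases hb (EE.pt hb x y h - Q) with h0 | ⟨x3, y3, h3, h0⟩
  · exact Or.inl h0
  by_cases hx3 : ρ < ‖(x3 : ℂ_[2])‖
  · exact Or.inr ⟨x3, y3, h3, h0, hx3⟩
  exfalso
  push Not at hx3
  obtain ⟨x4, y4, h4, he, hx4⟩ := (h1 E b hb ρ hρ).2 x3 y3 h3 x' y' h' hx3 hx'
  rw [← h0, ← hQe] at he
  have h5 : EE.pt hb x y h = EE.pt hb x4 y4 h4 := by
    rw [← he]; abel
  have h6 := (EE.pt_inj hb h5).1
  rw [h6] at hx
  linarith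

/-- close points have a difference near the origin -/
theorem n2_close {b : Fin 3 → E} (hb : Function.Injective b) {r ρ η : ℝ} (hr : 0 < r)
    (hrρ : r ≤ ρ) (hη : 0 < η) (hD : η ^ 2 < (r ^ 2 / ρ) ^ 3 / 4)
    (hDρ : ρ * η ^ 2 < (r ^ 2 / ρ) ^ 3 / 4)
    (hδ : ρ * η ^ 2 < (r ^ 2) ^ 2) (hηρ : η ≤ ρ) (hηδ : ρ * η < r ^ 2)
    (hρ : ∀ i, ‖((b i : E) : ℂ_[2])‖ ≤ ρ)
    (h01 : r ≤ ‖((b 0 : E) : ℂ_[2]) - (b 1 : E)‖) (h02 : r ≤ ‖((b 0 : E) : ℂ_[2]) - (b 2 : E)‖)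
    (h12 : r ≤ ‖((b 1 : E) : ℂ_[2]) - (b 2 : E)‖)
    {x1 y1 x2 y2 : E} (h1 : Eqn b x1 y1) (h2 : Eqn b x2 y2) (hx1 : ‖(x1 : ℂ_[2])‖ ≤ ρ)
    (hx2 : ‖(x2 : ℂ_[2])‖ ≤ ρ) (hx : ‖(x1 : ℂ_[2]) - (x2 : ℂ_[2])‖ ≤ η)
    (hy : ‖(y1 : ℂ_[2]) - (y2 : ℂ_[2])‖ ≤ η) :
    Near hb ρ (EE.pt hb x1 y1 h1 - EE.pt hb x2 y2 h2) := by
  have hρ0 : 0 < ρ := hr.trans_le hrρ
  have e1 : (y1 : ℂ_[2]) ^ 2 = ((x1 : ℂ_[2]) - (b 0 : E)) * ((x1 : ℂ_[2]) - (b 1 : E)) *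
      ((x1 : ℂ_[2]) - (b 2 : E)) := by
    have := congrArg (fun z : E => (z : ℂ_[2])) h1
    push_cast at this
    exact this
  have e2 : (y2 : ℂ_[2]) ^ 2 = ((x2 : ℂ_[2]) - (b 0 : E)) * ((x2 : ℂ_[2]) - (b 1 : E)) *
      ((x2 : ℂ_[2]) - (b 2 : E)) := by
    have := congrArg (fun z : E => (z : ℂ_[2])) h2
    push_cast at this
    exact this
  have hB : ‖((b 0 : E) : ℂ_[2]) + (b 1 : E) + (b 2 : E)‖ ≤ ρ :=
    n2_add_le (n2_add_le (hρ 0) (hρ 1)) (hρ 2)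
  have hd : (r ^ 2 / ρ) ^ 3 ≤ ‖(y1 : ℂ_[2])‖ ^ 2 ∨ r ^ 2 ≤
      ‖((x1 : ℂ_[2]) - (b 0 : E)) * ((x1 : ℂ_[2]) - (b 1 : E)) +
        ((x1 : ℂ_[2]) - (b 0 : E)) * ((x1 : ℂ_[2]) - (b 2 : E)) +
        ((x1 : ℂ_[2]) - (b 1 : E)) * ((x1 : ℂ_[2]) - (b 2 : E))‖ := by
    rw [← norm_pow, e1]
    refine n2_dich hr hrρ ?_ ?_ ?_ (n2_sub_le hx1 (hρ 0)) (n2_sub_le hx1 (hρ 1))
      (n2_sub_le hx1 (hρ 2))
    · rwa [sub_sub_sub_cancel_left, norm_sub_rev]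
    · rwa [sub_sub_sub_cancel_left, norm_sub_rev]
    · rwa [sub_sub_sub_cancel_left, norm_sub_rev]
  by_cases hxe : x1 = x2
  · subst hxe
    rcases EE.x_eq hb h1 h2 with h3 | h3
    · left; rw [h3, sub_self]
    · have h4 : EE.pt hb x1 y1 h1 - EE.pt hb x1 y2 h2 = EE.pt hb x1 y1 h1 + EE.pt hb x1 y1 h1 := by
        rw [sub_eq_add_neg, ← h3]
      rw [h4]
      have h5 : y1 = -y2 := by
        rw [EE.neg_pt hb h2] at h3
        exact (EE.pt_inj hb h3).2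
      by_cases hy0 : y1 = 0
      · left
        subst hy0
        exact EE.add_self_zero hb h1
      · obtain ⟨x3, y3, h6, h7, h8, -⟩ := EE.add_self hb h1 hy0
        refine Or.inr ⟨x3, y3, h6, h7, ?_⟩
        have h9 := congrArg (fun z : E => (z : ℂ_[2])) h8
        have h20 : ((2 : E) : ℂ_[2]) = 2 := rfl
        push_cast [h20] at h9
        rw [h9, add_sub_assoc]
        have hy0' : (y1 : ℂ_[2]) ≠ 0 := by
          intro h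
          exact hy0 (Subtype.ext h)
        refine n2_same n2_norm_two hρ0 hD hδ (by positivity) hy0' ?_ hd ?_
        · have h10 : (y1 : ℂ_[2]) = -(y2 : ℂ_[2]) := by
            have := congrArg (fun z : E => (z : ℂ_[2])) h5
            push_cast at this
            exact this
          have h11 : (2 : ℂ_[2]) * y1 = y1 - y2 := by linear_combination h10
          rw [h11]; exact hy
        · refine n2_sub_le hB ?_
          rw [norm_mul, n2_norm_two]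
          have := norm_nonneg (x1 : ℂ_[2])
          linarith
  · have h3 : EE.pt hb x1 y1 h1 - EE.pt hb x2 y2 h2
        = EE.pt hb x1 y1 h1 + EE.pt hb x2 (-y2) h2.neg := by
      rw [sub_eq_add_neg, EE.neg_pt]
    obtain ⟨x3, y3, h6, h7, h8, -⟩ := EE.add_of_x_ne hb h1 h2.neg hxe
    rw [h3]
    refine Or.inr ⟨x3, y3, h6, h7, ?_⟩
    have h9 := congrArg (fun z : E => (z : ℂ_[2])) h8
    push_cast at h9
    rw [h9, sub_neg_eq_add, sub_sub, add_sub_assoc]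
    have hxe' : (x1 : ℂ_[2]) - x2 ≠ 0 := by
      intro h
      exact hxe (Subtype.ext (sub_eq_zero.1 h))
    refine n2_diff (S := 3 * (x1 : ℂ_[2]) - (((b 0 : E) : ℂ_[2]) + (b 1 : E) + (b 2 : E)))
      n2_norm_two hη hρ0 hD hDρ hδ (by positivity) hηρ hηδ hxe' hx hy ?_ ?_ hd ?_
    · rw [e1, e2]; ring
    · refine n2_sub_le ?_ hB
      have : (3 : ℂ_[2]) * x1 = x1 + x1 + x1 := by ring
      rw [this]
      exact n2_add_le (n2_add_le hx1 hx1) hx1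
    · exact n2_sub_le hB (n2_add_le hx1 hx2)

theorem st_NOD2 (h1 : ST_NOD1) : ST_NOD2 := by
  intro E hE a ha
  have ne01 : ((a 0 : E) : ℂ_[2]) - (a 1 : E) ≠ 0 := fun h => by
    have := ha (Subtype.ext (sub_eq_zero.1 h)); simp at this
  have ne02 : ((a 0 : E) : ℂ_[2]) - (a 2 : E) ≠ 0 := fun h => by
    have := ha (Subtype.ext (sub_eq_zero.1 h)); simp at this
  have ne12 : ((a 1 : E) : ℂ_[2]) - (a 2 : E) ≠ 0 := fun h => by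
    have := ha (Subtype.ext (sub_eq_zero.1 h)); simp at this
  set ρ : ℝ := 1 + (‖((a 0 : E) : ℂ_[2])‖ + ‖((a 1 : E) : ℂ_[2])‖ + ‖((a 2 : E) : ℂ_[2])‖) with hρdef
  have n0 := norm_nonneg ((a 0 : E) : ℂ_[2])
  have n1 := norm_nonneg ((a 1 : E) : ℂ_[2])
  have n2 := norm_nonneg ((a 2 : E) : ℂ_[2])
  have hρ1 : 1 ≤ ρ := by linarith
  have hρ0 : 0 < ρ := by linarith
  have haρ : ∀ i, ‖((a i : E) : ℂ_[2])‖ ≤ ρ := by
    intro i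
    fin_cases i
    · change ‖((a 0 : E) : ℂ_[2])‖ ≤ ρ; linarith
    · change ‖((a 1 : E) : ℂ_[2])‖ ≤ ρ; linarith
    · change ‖((a 2 : E) : ℂ_[2])‖ ≤ ρ; linarith
  set r : ℝ := min ‖((a 0 : E) : ℂ_[2]) - (a 1 : E)‖ (min ‖((a 0 : E) : ℂ_[2]) - (a 2 : E)‖
    ‖((a 1 : E) : ℂ_[2]) - (a 2 : E)‖) with hrdef
  have hr : 0 < r := lt_min (norm_pos_iff.2 ne01) (lt_min (norm_pos_iff.2 ne02)
    (norm_pos_iff.2 ne12))
  have hrρ : r ≤ ρ := (min_le_left _ _).trans (n2_sub_le (haρ 0) (haρ 1))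
  obtain ⟨η, hη, hD, hDρ, hδ, hηρ, hηδ⟩ := n2_eta (D := (r ^ 2 / ρ) ^ 3) (δ := r ^ 2) (ρ := ρ)
    (by positivity) (by positivity) hρ0
  obtain ⟨R, f, hf⟩ := n2_cover E hE (ρ ^ 2) η hη
  refine ⟨min 1 r, lt_min one_pos hr, ρ, hρ0, R * R + 1, ?_⟩
  intro b hb hba
  have hbρ : ∀ i, ‖((b i : E) : ℂ_[2])‖ ≤ ρ := by
    intro i
    have e : ((b i : E) : ℂ_[2]) = (((b i : E) : ℂ_[2]) - (a i : E)) + (a i : E) := by ring
    rw [e]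
    exact n2_add_le (((hba i).le.trans (min_le_left _ _)).trans hρ1) (haρ i)
  have hbb : ∀ i j, r ≤ ‖((a i : E) : ℂ_[2]) - (a j : E)‖ →
      r ≤ ‖((b i : E) : ℂ_[2]) - (b j : E)‖ := by
    intro i j h
    have e : ((b i : E) : ℂ_[2]) - (b j : E) = (((a i : E) : ℂ_[2]) - (a j : E)) +
        ((((b i : E) : ℂ_[2]) - (a i : E)) + -(((b j : E) : ℂ_[2]) - (a j : E))) := by ring
    have h3 : ‖(((b i : E) : ℂ_[2]) - (a i : E)) + -(((b j : E) : ℂ_[2]) - (a j : E))‖ < r := by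
      refine (IsUltrametricDist.norm_add_le_max _ _).trans_lt (max_lt ?_ ?_)
      · exact (hba i).trans_le (min_le_right _ _)
      · rw [norm_neg]; exact (hba j).trans_le (min_le_right _ _)
    rw [e, n2_add_eq (h3.trans_le h)]
    exact h
  refine ⟨hbρ, fun P => ?_⟩
  have hcls : ∀ Q : EE b, ∃ c : Option (Fin R × Fin R), (c = none → Near hb ρ Q) ∧
      ∀ s, c = some s → ∃ (x y : E) (h : Eqn b x y), Q = EE.pt hb x y h ∧
        ‖(x : ℂ_[2])‖ ≤ ρ ∧ ‖(x : ℂ_[2]) - f s.1‖ < η ∧ ‖(y : ℂ_[2]) - f s.2‖ < η := by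
    intro Q
    by_cases hQ : Near hb ρ Q
    · exact ⟨none, fun _ => hQ, fun s hs => by simp at hs⟩
    · rcases EE.cases hb Q with h0 | ⟨x, y, h, h0⟩
      · exact absurd (Or.inl h0) hQ
      · have hx : ‖(x : ℂ_[2])‖ ≤ ρ := by
          by_contra hlt
          push Not at hlt
          exact hQ (Or.inr ⟨x, y, h, h0, hlt⟩)
        have e1 : (y : ℂ_[2]) ^ 2 = ((x : ℂ_[2]) - (b 0 : E)) * ((x : ℂ_[2]) - (b 1 : E)) *
            ((x : ℂ_[2]) - (b 2 : E)) := by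
          have := congrArg (fun z : E => (z : ℂ_[2])) h
          push_cast at this
          exact this
        have hy : ‖(y : ℂ_[2])‖ ≤ ρ ^ 2 := by
          refine le_of_sq_le_sq ?_ (by positivity)
          rw [← norm_pow, e1, norm_mul, norm_mul]
          calc ‖(x : ℂ_[2]) - (b 0 : E)‖ * ‖(x : ℂ_[2]) - (b 1 : E)‖ * ‖(x : ℂ_[2]) - (b 2 : E)‖
              ≤ ρ * ρ * ρ := by
                gcongr
                · exact n2_sub_le hx (hbρ 0)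
                · exact n2_sub_le hx (hbρ 1)
                · exact n2_sub_le hx (hbρ 2)
            _ ≤ (ρ ^ 2) ^ 2 := by nlinarith [pow_pos hρ0 3]
        have hx' : ‖(x : ℂ_[2])‖ ≤ ρ ^ 2 := hx.trans (by nlinarith)
        obtain ⟨i, hi⟩ := hf x x.2 hx'
        obtain ⟨j, hj⟩ := hf y y.2 hy
        refine ⟨some (i, j), fun h => by simp at h, fun s hs => ?_⟩
        obtain rfl : (i, j) = s := by simpa using hs
        exact ⟨x, y, h, h0, hx, hi, hj⟩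
  choose cls hcls1 hcls2 using hcls
  have key : ∀ i j, cls (P i) = cls (P j) → Near hb ρ (P j - P i) := by
    intro i j hij
    rcases hc : cls (P i) with _ | s
    · exact n2_near_sub h1 hb hbρ (hcls1 _ (hij ▸ hc)) (hcls1 _ hc)
    · obtain ⟨x1, y1, h3, h4, h5, h6, h7⟩ := hcls2 _ _ hc
      obtain ⟨x2, y2, g3, g4, g5, g6, g7⟩ := hcls2 _ _ (hij ▸ hc)
      rw [h4, g4]
      refine n2_close hb hr hrρ hη hD hDρ hδ hηρ hηδ hbρ (hbb 0 1 (min_le_left _ _))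
        (hbb 0 2 ((min_le_right _ _).trans (min_le_left _ _)))
        (hbb 1 2 ((min_le_right _ _).trans (min_le_right _ _))) g3 h3 g5 h5 ?_ ?_
      · have e : (x2 : ℂ_[2]) - x1 = ((x2 : ℂ_[2]) - f s.1) - ((x1 : ℂ_[2]) - f s.1) := by ring
        rw [e]; exact n2_sub_le g6.le h6.le
      · have e : (y2 : ℂ_[2]) - y1 = ((y2 : ℂ_[2]) - f s.2) - ((y1 : ℂ_[2]) - f s.2) := by ring
        rw [e]; exact n2_sub_le g7.le h7.le
  obtain ⟨i, j, hne, heq⟩ := Fintype.exists_ne_map_eq_of_card_lt (fun i => cls (P i))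
    (by simp [Fintype.card_option])
  rcases lt_or_gt_of_ne hne with h | h
  · exact ⟨i, j, h, key i j heq⟩
  · exact ⟨j, i, h, key j i heq.symm⟩

end Pool.Agent.Helper22.TW
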